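import Pool.Agent.Lib.MP_931187_co.Asym

/-!
# Van der Waerden numbers of colourings of low digit degree

The definitions are in `Pool/Agent/Lib/MP_931187_co/Defs.lean`.
-/

set_option autoImplicit false

namespace Pool.Agent.Results.MP_931187_co.LowDigitDegree

open Pool.Agent.Lib.MP_931187_co

/-- Monochromatic progressions in colourings whose colour is a function of a sum modulo `p` of
functions of at most `D` base `b` digits each. -/
theorem result (p : ℕ) [Fact p.Prime] (b : ℕ) (hb : 2 ≤ b) :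
    (∀ (D L K n N : ℕ) (χ : ℕ → Bool), n ≤ b ^ L →
      (p - 1) * D * ∑ j ∈ Finset.Icc 1 D, L.choose j * (b - 1) ^ j < K →
      2 * b ^ (K * L) ≤ N → DigitColouring b D p N χ → HasMonoAP χ n N) ∧
    (∀ α C : ℝ, 0 ≤ α → α < 1 - 1 / b → 1 < C → ∃ n₀ : ℕ, ∀ n ≥ n₀, ∀ N D : ℕ,
      (D : ℝ) ≤ α * Real.logb b n → C ^ n ≤ (N : ℝ) → ∀ χ : ℕ → Bool,
      DigitColouring b D p N χ → HasMonoAP χ n N) ∧
    (∀ D : ℕ, ∃ C : ℝ, ∀ n : ℕ, 2 ≤ n → ∀ N : ℕ,
      Real.exp (C * Real.log n ^ (D + 1)) ≤ (N : ℝ) → ∀ χ : ℕ → Bool,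
      DigitColouring b D p N χ → HasMonoAP χ n N) :=
  ⟨fun _ _ _ _ _ _ hn hK hN hχ => mono_of_degree hb hn hK hN hχ,
    fun _ _ h0 hα hC => mono_log p hb h0 hα hC, fun D => mono_fixed p hb D⟩

end Pool.Agent.Results.MP_931187_co.LowDigitDegree
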